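import Pool.Agent.K3h78.PN.Stm

/-!
# Linear change of a transcendence basis (brick MBASIS of helper78, by helper87)
-/

set_option autoImplicit false

open MvPolynomial

namespace Pool.Agent.K3h87.PN

theorem mat_sum {K R G m : Type} [Field K] [CommRing R] [Fintype G] [DecidableEq G] [Fintype m]
    (a : K →+* R) (M : Matrix G m K) (N : Matrix m G K) (h : M * N = 1) (Y : G → R) (g : G) :
    ∑ k, a (M g k) * ∑ g', a (N k g') * Y g' = Y g := by
  have h1 : ∀ k, a (M g k) * ∑ g', a (N k g') * Y g' = ∑ g', a (M g k * N k g') * Y g' := by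
    intro k
    rw [Finset.mul_sum]
    refine Finset.sum_congr rfl fun g' _ => ?_
    rw [map_mul]
    ring
  rw [Finset.sum_congr rfl fun k _ => h1 k, Finset.sum_comm]
  have h2 : ∀ g', ∑ k, a (M g k * N k g') * Y g' = if g = g' then Y g' else 0 := by
    intro g'
    rw [← Finset.sum_mul, ← map_sum, ← Matrix.mul_apply, h, Matrix.one_apply]
    split_ifs <;> simp
  rw [Finset.sum_congr rfl fun g' _ => h2 g']
  simp

theorem t_MBASIS : Pool.Agent.K3h78.PN.S_MBASIS := by
  intro K Ω _ _ _ J G m _ _ _ _ M N hMN hNM u b hb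
  set x : J × G → Ω := fun z =>
    algebraMap K Ω (u z.1) + ∑ k, algebraMap K Ω (M z.2 k) * b (z.1, k) with hx
  let Φ : MvPolynomial (J × G) K →ₐ[K] MvPolynomial (J × m) K :=
    aeval fun z => C (u z.1) + ∑ k, C (M z.2 k) * X (z.1, k)
  let Ψ : MvPolynomial (J × m) K →ₐ[K] MvPolynomial (J × G) K :=
    aeval fun z => ∑ g, C (N z.2 g) * (X (z.1, g) - C (u z.1))
  have hΨΦ : Ψ.comp Φ = AlgHom.id K _ := by
    apply MvPolynomial.algHom_ext
    rintro ⟨j, g⟩
    simp only [Φ, Ψ, AlgHom.comp_apply, aeval_X, map_add, map_sum, map_mul, AlgHom.id_apply,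
      algHom_C]
    rw [MvPolynomial.algebraMap_eq]
    rw [mat_sum (C : K →+* MvPolynomial (J × G) K) M N hMN (fun g' => X (j, g') - C (u j)) g]
    ring
  have hΦ : Function.Injective Φ := by
    intro p q hpq
    have h2 := congrArg Ψ hpq
    rw [← AlgHom.comp_apply, ← AlgHom.comp_apply, hΨΦ] at h2
    exact h2
  have hcomp : (aeval x : MvPolynomial (J × G) K →ₐ[K] Ω) = (aeval b).comp Φ := by
    apply MvPolynomial.algHom_ext
    rintro ⟨j, g⟩
    simp only [Φ, hx, AlgHom.comp_apply, aeval_X, map_add, map_sum, map_mul, algHom_C]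
  have hind : AlgebraicIndependent K x := by
    rw [AlgebraicIndependent, hcomp]
    exact Function.Injective.comp (g := (aeval b : MvPolynomial (J × m) K →ₐ[K] Ω)) hb.1 hΦ
  rw [isTranscendenceBasis_iff_algebraicIndependent_isAlgebraic]
  refine ⟨hind, ⟨fun z => Pool.Agent.K3h85.BS.isAlgebraic_mono (k₁ := K) (k₂ := K) ?_
    (hb.isAlgebraic.isAlgebraic z)⟩⟩
  have hxm : ∀ y, x y ∈ Algebra.adjoin K (Set.range x) := fun y => Algebra.subset_adjoin ⟨y, rfl⟩
  have h2 : Algebra.adjoin K (Set.range b) ≤ Algebra.adjoin K (Set.range x) := by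
    refine Algebra.adjoin_le ?_
    rintro _ ⟨⟨j, k⟩, rfl⟩
    have h3 : b (j, k) = ∑ g, algebraMap K Ω (N k g) * (x (j, g) - algebraMap K Ω (u j)) := by
      have h4 := mat_sum (algebraMap K Ω) N M hNM (fun k' => b (j, k')) k
      rw [← h4]
      refine Finset.sum_congr rfl fun g _ => ?_
      simp only [hx]
      ring
    rw [h3]
    exact Subalgebra.sum_mem _ fun g _ => Subalgebra.mul_mem _ (Subalgebra.algebraMap_mem _ _)
      (Subalgebra.sub_mem _ (hxm _) (Subalgebra.algebraMap_mem _ _))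
  exact fun z hz => h2 hz

end Pool.Agent.K3h87.PN
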